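import Mathlib
import Pool.Agent.H.MP_cf16d9_co.A
import Pool.Agent.H.MP_cf16d9_co.B

namespace Pool.Agent.Results.MP_cf16d9_co.Extra

open Finset Pool.Agent.H.MP_cf16d9_co

/-- A finite matroid, given by its ground set and rank function. -/
structure Mat (α : Type) [DecidableEq α] where
  E : Finset α
  r : Finset α → ℕ
  le_card : ∀ A ⊆ E, r A ≤ A.card
  mono : ∀ B ⊆ E, ∀ A ⊆ B, r A ≤ r B
  submod : ∀ A ⊆ E, ∀ B ⊆ E, r (A ∪ B) + r (A ∩ B) ≤ r A + r B

variable {α : Type} [DecidableEq α]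

/-- `N` is obtained from `M` by contracting some `C` and deleting the rest outside `N.E`. -/
def IsMinor (N M : Mat α) : Prop :=
  ∃ C ⊆ M.E, N.E ⊆ M.E \ C ∧ ∀ A ⊆ N.E, N.r A + M.r C = M.r (A ∪ C)

/-- `M` is isomorphic to the matroid on `Fin n` with rank function `ρ`. -/
def Iso (M : Mat α) (n : ℕ) (ρ : Finset (Fin n) → ℕ) : Prop :=
  ∃ e : Fin n → α, Function.Injective e ∧ univ.image e = M.E ∧ ∀ A, M.r (A.image e) = ρ A

/-- Regular: representable over every field. -/
def Regular (M : Mat α) : Prop :=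
  ∀ (K : Type) [Field K], ∃ (n : ℕ) (v : α → Fin n → K),
    ∀ A ⊆ M.E, M.r A = Module.finrank K (Submodule.span K (v '' (A : Set α)))

/-- The probability that `X_A` takes the value `X_A ω`. -/
noncomputable def q {N : ℕ} (p : Fin N → ℝ) (X : α → Fin N → ℕ) (A : Finset α) (ω : Fin N) : ℝ :=
  ∑ ω' ∈ univ.filter (fun ω' => ∀ i ∈ A, X i ω' = X i ω), p ω'

/-- The joint Shannon entropy `H(X_A) = E[- log P(X_A)]`. -/
noncomputable def H {N : ℕ} (p : Fin N → ℝ) (X : α → Fin N → ℕ) (A : Finset α) : ℝ :=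
  ∑ ω, p ω * (- Real.log (q p X A ω))

/-- The p-characteristic set. -/
def chi (M : Mat α) : Set ℕ :=
  {v | 2 ≤ v ∧ ∃ (N : ℕ) (p : Fin N → ℝ) (X : α → Fin N → ℕ), (∀ ω, 0 ≤ p ω) ∧ ∑ ω, p ω = 1 ∧
    ∀ A ⊆ M.E, H p X A = Real.log v * M.r A}

def InClass (M : Mat α) : Prop := Regular M ∨ chi M = {v | 3 ≤ v ∧ v ≠ 6}

def Excluded (M : Mat α) : Prop := ¬ InClass M ∧ ∀ N, IsMinor N M → N.E ≠ M.E → InClass N

/-- Rank function of the uniform matroid `U_{k,n}`. -/
def rU (k n : ℕ) (A : Finset (Fin n)) : ℕ := min k A.card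

def fanoLines : Finset (Finset (Fin 7)) :=
  {{0,1,3}, {0,2,4}, {1,2,5}, {2,3,6}, {1,4,6}, {0,5,6}, {3,4,5}}

/-- Rank function of the Fano matroid. -/
def rF (A : Finset (Fin 7)) : ℕ := if A ∈ fanoLines then 2 else min 3 A.card

/-- Rank function of the dual of the Fano matroid. -/
def rFd (A : Finset (Fin 7)) : ℕ := A.card + rF Aᶜ - 3

/-! ### entropy -/
section
variable {N : ℕ} {p : Fin N → ℝ} {X : α → Fin N → ℕ}

lemma q_ge (hp : ∀ ω, 0 ≤ p ω) (A : Finset α) (ω : Fin N) : p ω ≤ q p X A ω :=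
  single_le_sum (f := p) (fun i _ => hp i) (by simp)

lemma q_congr {A : Finset α} {ω ω' : Fin N} (h : ∀ i ∈ A, X i ω = X i ω') :
    q p X A ω = q p X A ω' := by
  unfold q; congr 1; ext w; simp only [mem_filter, mem_univ, true_and]
  exact forall₂_congr fun i hi => by rw [h i hi]

lemma det (hp : ∀ ω, 0 ≤ p ω) {A B : Finset α} (hAB : A ⊆ B) (h : H p X A = H p X B)
    {ω : Fin N} (h0 : 0 < p ω) : q p X A ω = q p X B ω ∧
      ∀ ω', 0 < p ω' → (∀ i ∈ A, X i ω' = X i ω) → ∀ i ∈ B, X i ω' = X i ω := by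
  have hs : ∀ w, univ.filter (fun ω' => ∀ i ∈ B, X i ω' = X i w) ⊆
      univ.filter (fun ω' => ∀ i ∈ A, X i ω' = X i w) := fun w x hx => by
    simp only [mem_filter, mem_univ, true_and] at hx ⊢; exact fun i hi => hx i (hAB hi)
  have hle : ∀ w, q p X B w ≤ q p X A w := fun w =>
    sum_le_sum_of_subset_of_nonneg (hs w) fun i _ _ => hp i
  have hnn : ∀ w ∈ (univ : Finset (Fin N)),
      0 ≤ p w * (Real.log (q p X A w) - Real.log (q p X B w)) := fun w _ => by
    rcases (hp w).eq_or_lt with h1 | h1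
    · simp [← h1]
    · exact mul_nonneg h1.le (sub_nonneg.2 (Real.log_le_log (h1.trans_le (q_ge hp B w)) (hle w)))
  have hsum : ∑ w, p w * (Real.log (q p X A w) - Real.log (q p X B w)) = 0 := by
    have : H p X B - H p X A = 0 := by rw [h, sub_self]
    rw [← this, H, H, ← sum_sub_distrib]; exact sum_congr rfl fun w _ => by ring
  have h2 := (sum_eq_zero_iff_of_nonneg hnn).1 hsum ω (mem_univ _)
  have h3 : q p X A ω = q p X B ω := by
    have := (mul_eq_zero.1 h2).resolve_left h0.ne'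
    exact Real.log_injOn_pos (h0.trans_le (q_ge hp A ω)) (h0.trans_le (q_ge hp B ω))
      (sub_eq_zero.1 this)
  refine ⟨h3, fun ω' h' ha => ?_⟩
  by_contra hb
  have := sum_lt_sum_of_subset (f := p) (hs ω) (i := ω') (by simpa using ha) (by simpa using hb) h'
    fun j _ _ => hp j
  exact this.ne h3.symm

lemma ind (hp : ∀ ω, 0 ≤ p ω) (h1 : ∑ ω, p ω = 1) {A B : Finset α}
    (h : H p X (A ∪ B) = H p X A + H p X B) :
    (∀ ω, 0 < p ω → q p X (A ∪ B) ω = q p X A ω * q p X B ω) ∧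
    ∀ ω1 ω2, 0 < p ω1 → 0 < p ω2 → ∃ ω, 0 < p ω ∧ (∀ i ∈ A, X i ω = X i ω1) ∧
      ∀ i ∈ B, X i ω = X i ω2 := by
  classical
  set x : Fin N → ℝ := fun w => q p X A w * q p X B w / q p X (A ∪ B) w with hx
  set T : Fin N → Fin N → Finset (Fin N) := fun a b =>
    univ.filter fun w => (∀ i ∈ A, X i w = X i a) ∧ ∀ i ∈ B, X i w = X i b with hT
  set t : Fin N → Fin N → ℝ := fun a b => ∑ w ∈ T a b, p w / q p X (A ∪ B) w with ht
  have hq : ∀ a b, ∀ w ∈ T a b, q p X (A ∪ B) w = ∑ u ∈ T a b, p u := fun a b w hw => by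
    unfold q; congr 1; ext u
    simp only [hT, mem_filter, mem_univ, true_and, mem_union, or_imp, forall_and] at hw ⊢
    exact and_congr (forall₂_congr fun i hi => by rw [hw.1 i hi])
      (forall₂_congr fun i hi => by rw [hw.2 i hi])
  have ht1 : ∀ a b, t a b = (∑ u ∈ T a b, p u) / ∑ u ∈ T a b, p u := fun a b => by
    rw [sum_div]; exact sum_congr rfl fun w hw => by rw [hq a b w hw]
  have ht2 : ∀ a b, t a b ≤ 1 := fun a b => by rw [ht1]; exact div_self_le_one _
  have e1 : ∑ w, p w * x w = ∑ a, ∑ b, p a * p b * t a b := by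
    have : ∀ w, p w * x w = ∑ a, ∑ b, p a * p b *
        (if w ∈ T a b then p w / q p X (A ∪ B) w else 0) := fun w => by
      have : p w * x w = (q p X A w * q p X B w) * (p w / q p X (A ∪ B) w) := by
        simp only [hx]; ring
      rw [this, q, q, sum_filter, sum_filter, sum_mul_sum, sum_mul]
      refine sum_congr rfl fun a _ => ?_
      rw [sum_mul]
      refine sum_congr rfl fun b _ => ?_
      simp only [hT, mem_filter, mem_univ, true_and, @eq_comm _ (X _ w)]
      by_cases ha : ∀ i ∈ A, X i a = X i w <;> by_cases hb : ∀ i ∈ B, X i b = X i w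
      · rw [if_pos ha, if_pos hb, if_pos ⟨ha, hb⟩]
      · simp [hb]
      · simp [ha]
      · simp [ha]
    rw [sum_congr rfl fun w _ => this w, sum_comm]
    refine sum_congr rfl fun a _ => ?_
    rw [sum_comm]
    refine sum_congr rfl fun b _ => ?_
    rw [← mul_sum, ← sum_filter]
    simp [ht]
  have e2 : ∑ a, ∑ b, p a * p b = 1 := by rw [← sum_mul_sum, h1, one_mul]
  have e3 : ∑ w, p w * Real.log (x w) = 0 := by
    have : H p X (A ∪ B) - H p X A - H p X B = 0 := by rw [h]; ring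
    rw [← this, H, H, H, ← sum_sub_distrib, ← sum_sub_distrib]
    refine sum_congr rfl fun w _ => ?_
    rcases (hp w).eq_or_lt with h0 | h0
    · simp [← h0]
    · simp only [hx]
      rw [Real.log_div (mul_pos (h0.trans_le (q_ge hp _ w)) (h0.trans_le (q_ge hp _ w))).ne'
        (h0.trans_le (q_ge hp _ w)).ne', Real.log_mul (h0.trans_le (q_ge hp _ w)).ne'
        (h0.trans_le (q_ge hp _ w)).ne']
      ring
  have hxpos : ∀ w, 0 < p w → 0 < x w := fun w h0 =>
    div_pos (mul_pos (h0.trans_le (q_ge hp _ w)) (h0.trans_le (q_ge hp _ w)))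
      (h0.trans_le (q_ge hp _ w))
  have n1 : ∀ w ∈ (univ : Finset (Fin N)), 0 ≤ p w * (x w - 1 - Real.log (x w)) := fun w _ => by
    rcases (hp w).eq_or_lt with h0 | h0
    · simp [← h0]
    · exact mul_nonneg h0.le (by linarith [Real.log_le_sub_one_of_pos (hxpos w h0)])
  have n2 : ∀ a ∈ (univ : Finset (Fin N)), ∀ b ∈ (univ : Finset (Fin N)),
      0 ≤ p a * p b * (1 - t a b) := fun a _ b _ =>
    mul_nonneg (mul_nonneg (hp a) (hp b)) (sub_nonneg.2 (ht2 a b))
  have s1 : ∑ w, p w * (x w - 1 - Real.log (x w)) = ∑ w, p w * x w - 1 := by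
    simp only [mul_sub, mul_one, sum_sub_distrib, e3, h1, sub_zero]
  have s2 : ∑ a, ∑ b, p a * p b * (1 - t a b) = 1 - ∑ w, p w * x w := by
    simp only [mul_sub, mul_one, sum_sub_distrib, e2, e1]
  have p1 := sum_nonneg n1
  have p2 := sum_nonneg fun a ha => sum_nonneg (n2 a ha)
  have z1 : ∑ w, p w * (x w - 1 - Real.log (x w)) = 0 := by linarith
  have z2 : ∑ a, ∑ b, p a * p b * (1 - t a b) = 0 := by linarith
  constructor
  · intro w h0
    have := (mul_eq_zero.1 ((sum_eq_zero_iff_of_nonneg n1).1 z1 w (mem_univ _))).resolve_left h0.ne'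
    have hx1 : x w = 1 := by
      by_contra hne
      linarith [Real.log_lt_sub_one_of_pos (hxpos w h0) hne]
    exact ((div_eq_one_iff_eq (h0.trans_le (q_ge hp _ w)).ne').1 hx1).symm
  · intro a b ha hb
    have := (sum_eq_zero_iff_of_nonneg (n2 a (mem_univ _))).1
      ((sum_eq_zero_iff_of_nonneg fun a ha => sum_nonneg (n2 a ha)).1 z2 a (mem_univ _)) b
      (mem_univ _)
    have h3 := (mul_eq_zero.1 this).resolve_left (mul_pos ha hb).ne'
    by_contra hne
    have : ∑ u ∈ T a b, p u = 0 := sum_eq_zero fun u hu => by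
      rcases (hp u).eq_or_lt with h0 | h0
      · exact h0.symm
      · exact absurd ⟨u, h0, (mem_filter.1 hu).2⟩ hne
    rw [ht1, this] at h3
    simp at h3
end

lemma grp {O : Type} [Fintype O] [DecidableEq O] (hO : Fintype.card O = 4) (o : O → O → O → O)
    (z : O) (n1 : ∀ x, o x z z = x) (n2 : ∀ x, o z x z = x) (n3 : ∀ x, o z z x = x)
    (h1 : ∀ a b a' b' c, o a b z = o a' b' z → o a b c = o a' b' c)
    (h2 : ∀ a c a' c' b, o a z c = o a' z c' → o a b c = o a' b c')
    (h3 : ∀ b c b' c' a, o z b c = o z b' c' → o a b c = o a b' c')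
    (hs : ∀ a, ∃ b, o a b z = z) (hu : ∀ a b b', o a b z = o a b' z → b = b') :
    ∃ t, t ≠ z ∧ o t t z = z ∧ o t z t = z ∧ o z t t = z := by
  have e1 : ∀ a c, o a z c = o z a c := fun a c => h1 _ _ _ _ _ (by rw [n1, n2])
  have e2 : ∀ a b, o a b z = o a z b := fun a b => h3 _ _ _ _ _ (by rw [n2, n3])
  have e3 : ∀ a b, o a b z = o z b a := fun a b => h2 _ _ _ _ _ (by rw [n1, n3])
  have ec : ∀ a b, o a b z = o b a z := fun a b => by rw [e3, ← e1, ← e2]
  choose ι hι using hs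
  have hinv : Function.Involutive ι := fun a => hu (ι a) _ _ (by rw [hι, ec, hι])
  by_contra hn
  have hfix : ∀ t, ι t = t → t = z := fun t ht => by
    by_contra hne
    have : o t t z = z := by have := hι t; rwa [ht] at this
    exact hn ⟨t, hne, this, by rw [← e2, this], by rw [← e1, ← e2, this]⟩
  have hz : ι z = z := by have := hι z; rwa [n2] at this
  have := Finset.sum_involution (s := univ.erase z) (f := fun _ => (1 : ZMod 2))
    (fun a _ => ι a) (fun _ _ => by decide)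
    (fun a ha _ h => (mem_erase.1 ha).1 (hfix a h))
    (fun a ha => mem_erase.2 ⟨fun h => (mem_erase.1 ha).1 (by rw [← hinv a, h, hz]), mem_univ _⟩)
    (fun a _ => hinv a)
  rw [sum_const, card_erase_of_mem (mem_univ _), card_univ, hO] at this
  exact absurd this (by decide)

def NF : Mat (Fin 7) :=
  ⟨univ, rN, fun A _ => ax1 A, fun B _ A h => ax2 B A h, fun A _ B _ => ax3 A B⟩

lemma not_reg : ¬ Regular NF := by
  intro h
  obtain ⟨n, v, hv⟩ := h (ZMod 2)
  have hv' : ∀ A : Finset (Fin 7), rN A = Module.finrank (ZMod 2)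
      (Submodule.span (ZMod 2) (v '' (A : Set (Fin 7)))) := fun A => hv A (subset_univ _)
  have hsub : ∀ (x y z : Fin 7), v z ∈ Submodule.span (ZMod 2) {v x, v y} →
      rN {x, y, z} ≤ rN {x, y} := fun x y z hz => by
    rw [hv', hv']
    apply Submodule.finrank_mono
    rw [Submodule.span_le]
    rintro _ ⟨i, hi, rfl⟩
    simp only [coe_insert, coe_singleton, Set.mem_insert_iff, Set.mem_singleton_iff,
      Set.image_pair] at hi ⊢
    rcases hi with rfl | rfl | rfl
    · exact Submodule.subset_span (by simp)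
    · exact Submodule.subset_span (by simp)
    · exact hz
  have key : ∀ x y z : Fin 7, rN {x, y, z} = rN {x, y} → ¬ rN {x, x, z} ≤ rN {x, x} →
      ¬ rN {y, y, z} ≤ rN {y, y} → v z = v x + v y := fun x y z h1 h2 h3 => by
    have hle : Submodule.span (ZMod 2) (v '' (({x, y} : Finset (Fin 7)) : Set (Fin 7))) ≤
        Submodule.span (ZMod 2) (v '' (({x, y, z} : Finset (Fin 7)) : Set (Fin 7))) :=
      Submodule.span_mono (Set.image_mono (by intro i; simp; tauto))
    have heq := Submodule.eq_of_le_of_finrank_eq hle (by rw [← hv', ← hv', h1])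
    have hz : v z ∈ Submodule.span (ZMod 2) (v '' (({x, y} : Finset (Fin 7)) : Set (Fin 7))) := by
      rw [heq]; exact Submodule.subset_span ⟨z, by simp, rfl⟩
    simp only [coe_insert, coe_singleton, Set.image_pair] at hz
    obtain ⟨s, t, hst⟩ := Submodule.mem_span_pair.1 hz
    have hs : ∀ s : ZMod 2, s = 0 ∨ s = 1 := by decide
    rcases hs s with rfl | rfl
    · exact absurd (hsub y y z (Submodule.mem_span_pair.2 ⟨0, t, by simpa using hst⟩)) h3
    rcases hs t with rfl | rfl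
    · exact absurd (hsub x x z (Submodule.mem_span_pair.2 ⟨1, 0, by simpa using hst⟩)) h2
    simpa using hst.symm
  have k3 := key 0 1 3 (by decide) (by decide) (by decide)
  have k4 := key 0 2 4 (by decide) (by decide) (by decide)
  have k5 := key 1 2 5 (by decide) (by decide) (by decide)
  refine absurd (hsub 3 4 5 (Submodule.mem_span_pair.2 ⟨1, 1, ?_⟩)) (by decide)
  rw [k3, k4, k5]
  funext i
  have : ∀ a b c : ZMod 2, a + b + (a + c) = b + c := by decide
  simpa using this _ _ _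

lemma not_four : 4 ∉ chi NF := by
  classical
  rintro ⟨-, N, p, X, hp, h1, hH⟩
  have hH' : ∀ A : Finset (Fin 7), H p X A = Real.log 4 * rN A := fun A => by
    exact_mod_cast hH A (subset_univ _)
  have D : ∀ A B : Finset (Fin 7), A ⊆ B → rN A = rN B → ∀ ω, 0 < p ω → q p X A ω = q p X B ω ∧
      ∀ ω', 0 < p ω' → (∀ i ∈ A, X i ω' = X i ω) → ∀ i ∈ B, X i ω' = X i ω :=
    fun A B hAB hr ω h0 => det hp hAB (by rw [hH', hH', hr]) h0
  have I := fun (A B : Finset (Fin 7)) (hr : rN (A ∪ B) = rN A + rN B) =>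
    ind (X := X) (A := A) (B := B) hp h1 (by rw [hH', hH', hH', hr]; push_cast; ring)
  have L : ∀ i j k : Fin 7, rN {i, j} = rN {i, j, k} → ∀ ω ω', 0 < p ω → 0 < p ω' →
      X i ω = X i ω' → X j ω = X j ω' → X k ω = X k ω' := fun i j k hr ω ω' a b c d =>
    (D {i, j} {i, j, k} (by intro x; simp; tauto) hr ω' b).2 ω a (by simp [c, d]) k (by simp)
  have Bs : ∀ i j k : Fin 7, rN {i, j, k} = 3 → ∀ l ω ω', 0 < p ω → 0 < p ω' →
      X i ω = X i ω' → X j ω = X j ω' → X k ω = X k ω' → X l ω = X l ω' :=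
    fun i j k hr l ω ω' a b c d e =>
    (D {i, j, k} univ (subset_univ _) (by rw [hr]; decide) ω' b).2 ω a (by simp [c, d, e]) l
      (by simp)
  have Am : ∀ i j k : Fin 7, rN ({i} ∪ {j}) = rN {i} + rN {j} →
      rN ({i, j} ∪ {k}) = rN {i, j} + rN {k} → ∀ a b c : {w // 0 < p w}, ∃ w : {w // 0 < p w},
      X i w = X i a ∧ X j w = X j b ∧ X k w = X k c := fun i j k r1 r2 a b c => by
    obtain ⟨u, hu, u1, u2⟩ := (I _ _ r1).2 a b a.2 b.2
    obtain ⟨w, hw, w1, w2⟩ := (I _ _ r2).2 u c hu c.2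
    exact ⟨⟨w, hw⟩, (w1 i (by simp)).trans (u1 i (by simp)),
      (w1 j (by simp)).trans (u2 j (by simp)), w2 k (by simp)⟩
  have qpos : ∀ (A : Finset (Fin 7)) ω, 0 < p ω → 0 < q p X A ω :=
    fun A ω h => h.trans_le (q_ge hp A ω)
  have u1 : ∀ ω, 0 < p ω → q p X {6} ω = q p X {0} ω := fun ω h => by
    have a1 := (I {5} {6} (by decide)).1 ω h
    have a2 := (I {5} {0} (by decide)).1 ω h
    have a3 := (D ({5} ∪ {6}) {0, 5, 6} (by decide) (by decide) ω h).1
    have a4 := (D ({5} ∪ {0}) {0, 5, 6} (by decide) (by decide) ω h).1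
    exact mul_left_cancel₀ (qpos {5} ω h).ne' (by rw [← a1, ← a2, a3, a4])
  obtain ⟨ω0, h0⟩ : ∃ ω, 0 < p ω := by
    by_contra hn
    push Not at hn
    have : ∑ ω, p ω ≤ 0 := sum_nonpos fun i _ => hn i
    linarith
  have u2 : ∀ ω, 0 < p ω → q p X {6} ω = q p X {0} ω0 := fun ω h => by
    obtain ⟨w, hw, w1, w2⟩ := (I {6} {0} (by decide)).2 ω ω0 h h0
    rw [← q_congr w1, u1 w hw, q_congr w2]
  have u3 : q p X {0} ω0 = 1 / 4 := by
    have a := hH' {6}
    have : H p X {6} = - Real.log (q p X {0} ω0) := by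
      rw [← one_mul (- Real.log _), ← h1, sum_mul]
      refine sum_congr rfl fun w _ => ?_
      rcases (hp w).eq_or_lt with h | h
      · simp [← h]
      · rw [u2 w h]
    rw [this, show rN {6} = 1 by decide] at a
    apply Real.log_injOn_pos (qpos _ _ h0) (by norm_num : (0 : ℝ) < 1 / 4)
    rw [one_div, Real.log_inv]; push_cast at a; linarith
  set V : Finset ℕ := (univ.filter fun w => 0 < p w).image (X 6) with hV
  have hcard : V.card = 4 := by
    have a : ∑ y ∈ V, ∑ w ∈ univ.filter (fun w => 0 < p w) with X 6 w = y, p w =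
        ∑ w ∈ univ.filter (fun w => 0 < p w), p w :=
      sum_fiberwise_of_maps_to (fun w hw => mem_image_of_mem _ hw) _
    have b : ∑ w ∈ univ.filter (fun w => 0 < p w), p w = 1 := by
      rw [← h1]; exact sum_filter_of_ne fun w _ h => (hp w).lt_of_ne' h
    have c : ∀ y ∈ V, ∑ w ∈ univ.filter (fun w => 0 < p w) with X 6 w = y, p w = 1 / 4 := by
      intro y hy
      obtain ⟨u, hu, rfl⟩ := mem_image.1 hy
      rw [← u3, ← u2 u (mem_filter.1 hu).2, q, filter_comm,
        sum_filter_of_ne fun w _ h => (hp w).lt_of_ne' h]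
      simp
    rw [sum_congr rfl c, b, sum_const, nsmul_eq_mul] at a
    have : (V.card : ℝ) = 4 := by linarith
    exact_mod_cast this
  have hx : ∀ y : V, ∃ w : {w // 0 < p w}, X 6 w = y := fun y => by
    obtain ⟨u, hu, h⟩ := mem_image.1 y.2
    exact ⟨⟨u, (mem_filter.1 hu).2⟩, h⟩
  choose ρ hρ using hx
  let z0 : {w // 0 < p w} := ⟨ω0, h0⟩
  let val : {w // 0 < p w} → V := fun w => ⟨X 6 w, mem_image_of_mem _ (by simpa using w.2)⟩
  choose a a6 a1 a2 using fun y => Am 6 1 2 (by decide) (by decide) (ρ y) z0 z0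
  choose b b6 b0 b2 using fun y => Am 6 0 2 (by decide) (by decide) (ρ y) z0 z0
  choose c c6 c0 c1 using fun y => Am 6 0 1 (by decide) (by decide) (ρ y) z0 z0
  choose W W0 W1 W2 using fun x y w => Am 0 1 2 (by decide) (by decide) (a x) (b y) (c w)
  simp only [hρ] at a6 b6 c6
  set z := val z0 with hz
  have az : X 0 (a z) = X 0 z0 := Bs 6 1 2 (by decide) 0 _ _ (a z).2 h0 (a6 z) (a1 z) (a2 z)
  have bz : X 1 (b z) = X 1 z0 := Bs 6 0 2 (by decide) 1 _ _ (b z).2 h0 (b6 z) (b0 z) (b2 z)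
  have cz : X 2 (c z) = X 2 z0 := Bs 6 0 1 (by decide) 2 _ _ (c z).2 h0 (c6 z) (c0 z) (c1 z)
  have B0 := fun (u w : {w // 0 < p w}) => Bs 0 1 2 (by decide) 6 u w u.2 w.2
  have L' := fun i j k hr (u w : {w // 0 < p w}) => L i j k hr u w u.2 w.2
  obtain ⟨t, t0, t1, t2, t3⟩ := grp (O := V) (by simp [hcard]) (fun x y w => val (W x y w)) z
    (fun x => Subtype.ext ((B0 _ (a x) (W0 ..) (by rw [W1, bz, a1]) (by rw [W2, cz, a2])).trans
      (a6 x)))
    (fun x => Subtype.ext ((B0 _ (b x) (by rw [W0, az, b0]) (W1 ..) (by rw [W2, cz, b2])).trans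
      (b6 x)))
    (fun x => Subtype.ext ((B0 _ (c x) (by rw [W0, az, c0]) (by rw [W1, bz, c1]) (W2 ..)).trans
      (c6 x)))
    (fun x y x' y' w h => Subtype.ext (L' 2 3 6 (by decide) _ _ (by rw [W2, W2])
      ((L' 0 1 3 (by decide) _ (W x y z) (by rw [W0, W0]) (by rw [W1, W1])).trans
        ((L' 6 2 3 (by decide) _ (W x' y' z) (congrArg Subtype.val h) (by rw [W2, W2])).trans
          (L' 0 1 3 (by decide) _ _ (by rw [W0, W0]) (by rw [W1, W1]))))))
    (fun x y x' y' w h => Subtype.ext (L' 1 4 6 (by decide) _ _ (by rw [W1, W1])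
      ((L' 0 2 4 (by decide) _ (W x z y) (by rw [W0, W0]) (by rw [W2, W2])).trans
        ((L' 6 1 4 (by decide) _ (W x' z y') (congrArg Subtype.val h) (by rw [W1, W1])).trans
          (L' 0 2 4 (by decide) _ _ (by rw [W0, W0]) (by rw [W2, W2]))))))
    (fun x y x' y' w h => Subtype.ext (L' 0 5 6 (by decide) _ _ (by rw [W0, W0])
      ((L' 1 2 5 (by decide) _ (W z x y) (by rw [W1, W1]) (by rw [W2, W2])).trans
        ((L' 6 0 5 (by decide) _ (W z x' y') (congrArg Subtype.val h) (by rw [W0, W0])).trans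
          (L' 1 2 5 (by decide) _ _ (by rw [W1, W1]) (by rw [W2, W2]))))))
    (fun x => by
      obtain ⟨u, u0, u2, u6⟩ := Am 0 2 6 (by decide) (by decide) (a x) z0 z0
      obtain ⟨u', v1, v0, v2⟩ := Am 1 0 2 (by decide) (by decide) u z0 z0
      refine ⟨val u', Subtype.ext ((B0 _ u (by rw [W0, u0]) ?_ (by rw [W2, cz, u2])).trans u6)⟩
      rw [W1, ← v1]
      exact Bs 6 0 2 (by decide) 1 _ _ (b _).2 u'.2 (b6 _) (by rw [b0, v0]) (by rw [b2, v2]))
    (fun x y y' h => by
      have := Bs 0 2 6 (by decide) 1 _ _ (W x y z).2 (W x y' z).2 (by rw [W0, W0])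
        (by rw [W2, W2]) (congrArg Subtype.val h)
      rw [W1, W1] at this
      apply Subtype.ext
      rw [← b6, ← b6]
      exact B0 _ _ (by rw [b0, b0]) this (by rw [b2, b2]))
  have f3 : X 3 (W t t t) = X 3 z0 :=
    (L' 0 1 3 (by decide) _ (W t t z) (by rw [W0, W0]) (by rw [W1, W1])).trans
      (L' 6 2 3 (by decide) _ _ (congrArg Subtype.val t1) (by rw [W2, cz]))
  have f4 : X 4 (W t t t) = X 4 z0 :=
    (L' 0 2 4 (by decide) _ (W t z t) (by rw [W0, W0]) (by rw [W2, W2])).trans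
      (L' 6 1 4 (by decide) _ _ (congrArg Subtype.val t2) (by rw [W1, bz]))
  have f5 : X 5 (W t t t) = X 5 z0 :=
    (L' 1 2 5 (by decide) _ (W z t t) (by rw [W1, W1]) (by rw [W2, W2])).trans
      (L' 6 0 5 (by decide) _ _ (congrArg Subtype.val t3) (by rw [W0, az]))
  have f0 := Bs 3 4 5 (by decide) 0 _ _ (W t t t).2 h0 f3 f4 f5
  rw [W0] at f0
  exact t0 (Subtype.ext ((a6 t).symm.trans (B0 _ z0 f0 (a1 t) (a2 t))))

lemma noU' {N : Mat (Fin 7)} (h : IsMinor N NF) (k : ℕ) (hk : k = 2 ∨ k = 3) :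
    ¬ Iso N 5 (rU k 5) := by
  rintro ⟨e, he, hE, hr⟩
  obtain ⟨C, -, hC, hN⟩ := h
  have h1 : N.E.card = 5 := by rw [← hE, card_image_of_injective _ he]; simp
  have h2 : N.E ∩ C = ∅ := by
    rw [← disjoint_iff_inter_eq_empty]; exact disjoint_of_subset_left hC sdiff_disjoint
  have h3 : ∀ B ∈ N.E.powerset, min k B.card + rN C = rN (B ∪ C) := fun B hB => by
    have hB' := mem_powerset.1 hB
    obtain ⟨A, -, rfl⟩ := subset_image_iff.1 (hE ▸ hB')
    have := hN _ hB'
    rw [hr] at this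
    rw [card_image_of_injective _ he]
    exact this
  rcases hk with rfl | rfl
  · exact (noU _ _ h1 h2).1 h3
  · exact (noU _ _ h1 h2).2 h3

theorem result : ∃ M : Mat (Fin 7), Excluded M ∧ ¬ Iso M 5 (rU 2 5) ∧ ¬ Iso M 5 (rU 3 5) ∧
    ¬ Iso M 7 rF ∧ ¬ Iso M 7 rFd := by
  have h0 : IsMinor NF NF ∧ ¬ InClass NF := by
    refine ⟨⟨∅, by simp, by simp, fun A _ => ?_⟩, ?_⟩
    · rw [union_empty]; rfl
    · rintro (h | h)
      · exact not_reg h
      · exact not_four (h ▸ by simp)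
  obtain ⟨M, ⟨hM, hM'⟩, hmin⟩ := (measure fun M : Mat (Fin 7) => M.E.card).wf.has_min
    {M | IsMinor M NF ∧ ¬ InClass M} ⟨NF, h0⟩
  have full : ∀ ρ, Iso M 7 ρ → ∃ e : Fin 7 → Fin 7, Function.Injective e ∧
      ∀ A, rN (A.image e) = ρ A := by
    rintro ρ ⟨e, he, hE, hr⟩
    obtain ⟨C, -, hC, hN⟩ := hM
    have h1 : M.E = univ := eq_univ_of_card _ (by rw [← hE, card_image_of_injective _ he]; simp)
    have h2 : C = ∅ := by
      rw [eq_empty_iff_forall_notMem]
      intro x hx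
      exact (mem_sdiff.1 (hC (h1 ▸ mem_univ x))).2 hx
    refine ⟨e, he, fun A => ?_⟩
    have := hN (A.image e) (h1 ▸ subset_univ _)
    rw [h2, union_empty, hr] at this
    exact this.symm
  refine ⟨M, ⟨hM', fun N hN hne => ?_⟩, noU' hM 2 (by simp), noU' hM 3 (by simp), fun h => ?_,
    fun h => ?_⟩
  · by_contra hn
    obtain ⟨C, -, hC, h1⟩ := hM
    obtain ⟨C', hC', h2, h3⟩ := hN
    have hsub : N.E ⊆ M.E := h2.trans sdiff_subset
    refine hmin N ⟨⟨C' ∪ C, subset_univ _, fun x hx => ?_, fun A hA => ?_⟩, hn⟩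
      (card_lt_card (hsub.ssubset_of_ne hne))
    · have := mem_sdiff.1 (h2 hx)
      have := mem_sdiff.1 (hC this.1)
      simp only [mem_sdiff, mem_union]; tauto
    · rw [← union_assoc, ← h1 _ hC', ← h1 _ (union_subset (hA.trans hsub) hC'), ← h3 A hA,
        add_assoc]
  · obtain ⟨e, he, hr⟩ := full _ h
    have h1 : ∀ A ∈ fanoLines, A.card = 3 ∧ rF A = 2 := by decide +kernel
    have h2 : ∀ B : Finset (Fin 7), B.card = 3 → rN B = 2 → B ∈ nfLines := by decide +kernel
    have := card_le_card_of_injOn (s := fanoLines) (t := nfLines) (fun A => A.image e)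
      (fun A hA => h2 _ (by rw [card_image_of_injective _ he]; exact (h1 A hA).1)
        (by rw [hr]; exact (h1 A hA).2)) (fun A _ B _ hAB => image_injective he hAB)
    exact absurd this (by decide)
  · obtain ⟨e, -, hr⟩ := full _ h
    have h1 : ∀ B : Finset (Fin 7), rN B ≠ 4 := by decide +kernel
    exact h1 _ ((hr univ).trans (by decide))

end Pool.Agent.Results.MP_cf16d9_co.Extra
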